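import Pool.Agent.H22.HD.Stmts
import Pool.Agent.H44.Heat.H

/-!
# Project HD, module BAS: the base of the induction
-/

set_option autoImplicit false

open MeasureTheory ProbabilityTheory Polynomial

namespace Pool.Agent.H22.HD

namespace BASaux

theorem derivative_hermite_succ (k : ℕ) :
    derivative (hermite (k + 1)) = ((k : ℤ[X]) + 1) * hermite k := by
  rw [hermite_succ, derivative_sub, derivative_mul, derivative_X, one_mul]
  have h := Pool.Agent.H44.Heat.hermite_ode k
  calc hermite k + X * derivative (hermite k) - derivative (derivative (hermite k)) =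
      hermite k + (X * derivative (hermite k) - derivative (derivative (hermite k))) := by ring
    _ = ((k : ℤ[X]) + 1) * hermite k := by rw [h]; ring

theorem X_mul_hermite (k : ℕ) :
    (X : ℤ[X]) * hermite (k + 1) = hermite (k + 2) + ((k : ℤ[X]) + 1) * hermite k := by
  rw [hermite_succ (k + 1), ← derivative_hermite_succ]
  ring

/-- Hermite functions of a given parity in one variable -/
noncomputable def SS (e : ℕ) : Submodule ℝ ((Fin 1 → ℝ) → ℝ) :=
  Submodule.span ℝ {g : (Fin 1 → ℝ) → ℝ | ∃ j : ℕ, Even (j + e) ∧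
    g = fun x => aeval (x 0) (hermite j)}

theorem mem_SS (e j : ℕ) (h : Even (j + e)) :
    (fun x : Fin 1 → ℝ => aeval (x 0) (hermite j)) ∈ SS e :=
  Submodule.subset_span ⟨j, h, rfl⟩

/-- multiplication by the coordinate -/
noncomputable def Mx : ((Fin 1 → ℝ) → ℝ) →ₗ[ℝ] ((Fin 1 → ℝ) → ℝ) where
  toFun g := fun x => x 0 * g x
  map_add' g h := by
    funext x
    simp [mul_add]
  map_smul' c g := by
    funext x
    simp [mul_left_comm]

theorem Mx_mem (e : ℕ) (g : (Fin 1 → ℝ) → ℝ) (hg : g ∈ SS e) : Mx g ∈ SS (e + 1) := by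
  have h : SS e ≤ (SS (e + 1)).comap Mx := by
    refine Submodule.span_le.2 ?_
    rintro _ ⟨j, hj, rfl⟩
    rw [SetLike.mem_coe, Submodule.mem_comap]
    rcases j with _ | k
    · have : Mx (fun x : Fin 1 → ℝ => aeval (x 0) (hermite 0)) =
          fun x : Fin 1 → ℝ => aeval (x 0) (hermite 1) := by
        funext x
        simp [Mx]
      rw [this]
      refine mem_SS _ _ ?_
      have h2 : 1 + (e + 1) = (0 + e) + 2 := by ring
      rw [h2]
      exact hj.add even_two
    · have : Mx (fun x : Fin 1 → ℝ => aeval (x 0) (hermite (k + 1))) =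
          (fun x : Fin 1 → ℝ => aeval (x 0) (hermite (k + 2))) +
            ((k : ℝ) + 1) • fun x : Fin 1 → ℝ => aeval (x 0) (hermite k) := by
        funext x
        have h1 := congrArg (fun q : ℤ[X] => aeval (x 0) q) (X_mul_hermite k)
        simp only [map_mul, map_add, aeval_X, map_natCast, map_one] at h1
        simp only [Mx, LinearMap.coe_mk, AddHom.coe_mk, Pi.add_apply, Pi.smul_apply, smul_eq_mul]
        exact h1
      rw [this]
      refine Submodule.add_mem _ (mem_SS _ _ ?_) (Submodule.smul_mem _ _ (mem_SS _ _ ?_))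
      · have h2 : k + 2 + (e + 1) = (k + 1 + e) + 2 := by ring
        rw [h2]
        exact hj.add even_two
      · have h2 : k + (e + 1) = k + 1 + e := by ring
        rw [h2]
        exact hj
  exact h hg

theorem pow_mem (n : ℕ) : (fun x : Fin 1 → ℝ => x 0 ^ n) ∈ SS n := by
  induction n with
  | zero =>
    have : (fun x : Fin 1 → ℝ => x 0 ^ 0) = fun x : Fin 1 → ℝ => aeval (x 0) (hermite 0) := by
      funext x
      simp
    rw [this]
    exact mem_SS _ _ (by simp)
  | succ n ih =>
    have := Mx_mem n _ ih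
    have h : Mx (fun x : Fin 1 → ℝ => x 0 ^ n) = fun x : Fin 1 → ℝ => x 0 ^ (n + 1) := by
      funext x
      simp [Mx, pow_succ']
    rwa [h] at this

theorem SS_le (e : ℕ) (he : Odd e) : SS e ≤ TT (Fin 1) 1 := by
  refine Submodule.span_le.2 ?_
  rintro _ ⟨j, hj, rfl⟩
  refine Submodule.subset_span ⟨fun _ => j, ?_, ?_⟩
  · have : j ≠ 0 := by
      rintro rfl
      rw [zero_add] at hj
      exact (Nat.not_even_iff_odd.2 he) hj
    simp
    omega
  · funext x
    simp

/-- Taylor polynomial of the sine -/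
noncomputable def Ty (K : ℕ) (x : ℝ) : ℝ :=
  ∑ k ∈ Finset.range K, (-1) ^ k * x ^ (2 * k + 1) / ((2 * k + 1).factorial : ℝ)

theorem Ty_mem (K : ℕ) : (fun x : Fin 1 → ℝ => Ty K (x 0)) ∈ TT (Fin 1) 1 := by
  have : (fun x : Fin 1 → ℝ => Ty K (x 0)) = ∑ k ∈ Finset.range K,
      ((-1 : ℝ) ^ k / ((2 * k + 1).factorial : ℝ)) • fun x : Fin 1 → ℝ => x 0 ^ (2 * k + 1) := by
    funext x
    simp only [Ty, Finset.sum_apply, Pi.smul_apply, smul_eq_mul]
    refine Finset.sum_congr rfl fun k _ => ?_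
    ring
  rw [this]
  refine Submodule.sum_mem _ fun k _ => Submodule.smul_mem _ _ ?_
  exact SS_le _ ⟨k, rfl⟩ (pow_mem _)

theorem Ty_tendsto (x : ℝ) : Filter.Tendsto (fun K => Ty K x) Filter.atTop (nhds (Real.sin x)) :=
  (Real.hasSum_sin x).tendsto_sum_nat

theorem Ty_bound (K : ℕ) (x : ℝ) : |Ty K x| ≤ Real.exp |x| := by
  have h1 : |Ty K x| ≤ ∑ k ∈ Finset.range K, |x| ^ (2 * k + 1) / ((2 * k + 1).factorial : ℝ) := by
    refine (Finset.abs_sum_le_sum_abs _ _).trans (le_of_eq (Finset.sum_congr rfl fun k _ => ?_))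
    rw [abs_div, abs_mul, abs_pow, abs_pow, abs_neg, abs_one, one_pow, one_mul, Nat.abs_cast]
  have h2 : ∑ k ∈ Finset.range K, |x| ^ (2 * k + 1) / ((2 * k + 1).factorial : ℝ) ≤
      Real.sinh |x| := by
    refine sum_le_hasSum _ (fun k _ => by positivity) (Real.hasSum_sinh |x|)
  have h3 : Real.sinh |x| ≤ Real.exp |x| := by
    rw [Real.sinh_eq]
    have := Real.exp_pos (-|x|)
    have := Real.exp_pos |x|
    linarith
  linarith

theorem Ty_cont (K : ℕ) : Continuous (Ty K) := by
  unfold Ty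
  fun_prop

theorem err_cont (K : ℕ) : Continuous (fun x => Ty K x - Real.sin x) :=
  (Ty_cont K).sub Real.continuous_sin

theorem err_bound (K : ℕ) (x : ℝ) : (Ty K x - Real.sin x) ^ 2 ≤ 4 * Real.exp (2 * |x|) := by
  have h1 := Ty_bound K x
  have h2 := Real.abs_sin_le_one x
  have h3 : 1 ≤ Real.exp |x| := Real.one_le_exp (abs_nonneg x)
  have h4 : |Ty K x - Real.sin x| ≤ 2 * Real.exp |x| := by
    refine (abs_sub _ _).trans ?_
    linarith
  have h5 : Real.exp (2 * |x|) = Real.exp |x| ^ 2 := by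
    rw [two_mul, Real.exp_add]
    ring
  rw [← sq_abs, h5]
  nlinarith [abs_nonneg (Ty K x - Real.sin x)]

theorem exp_int : Integrable (fun x : ℝ => 4 * Real.exp (2 * |x|)) (gaussianReal 0 1) := by
  refine Integrable.const_mul ?_ 4
  exact integrable_exp_mul_abs (X := fun x : ℝ => x) (integrable_exp_mul_gaussianReal 2)
    (integrable_exp_mul_gaussianReal (-2))

theorem err_tendsto : Filter.Tendsto
    (fun K => ∫ x, (Ty K x - Real.sin x) ^ 2 ∂(gaussianReal 0 1)) Filter.atTop (nhds 0) := by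
  have h := tendsto_integral_of_dominated_convergence (μ := gaussianReal 0 1)
    (F := fun (K : ℕ) (x : ℝ) => (Ty K x - Real.sin x) ^ 2) (f := fun _ : ℝ => (0 : ℝ))
    (fun x => 4 * Real.exp (2 * |x|))
    (fun K => ((err_cont K).pow 2).aestronglyMeasurable) exp_int
    (fun K => Filter.Eventually.of_forall fun x => by
      rw [Real.norm_eq_abs, abs_of_nonneg (sq_nonneg _)]
      exact err_bound K x)
    (Filter.Eventually.of_forall fun x => by
      have := ((Ty_tendsto x).sub_const (Real.sin x)).pow 2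
      simpa using this)
  rw [integral_zero] at h
  exact h

theorem err_memLp (K : ℕ) : MemLp (fun x => Ty K x - Real.sin x) 2 (gaussianReal 0 1) := by
  rw [memLp_two_iff_integrable_sq (err_cont K).aestronglyMeasurable]
  refine exp_int.mono' ((err_cont K).pow 2).aestronglyMeasurable ?_
  refine Filter.Eventually.of_forall fun x => ?_
  rw [Real.norm_eq_abs, abs_of_nonneg (sq_nonneg _)]
  exact err_bound K x

theorem int_cos_two : ∫ x, Real.cos (2 * x) ∂(gaussianReal 0 1) = Real.exp (-2) := by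
  have h := charFun_gaussianReal (μ := 0) (v := 1) 2
  rw [charFun_apply_real] at h
  have h1 : ∫ x : ℝ, Real.cos (2 * x) ∂(gaussianReal 0 1) =
      (∫ x : ℝ, Complex.exp ((2 : ℝ) * (x : ℝ) * Complex.I) ∂(gaussianReal 0 1)).re := by
    have hint : Integrable (fun x : ℝ => Complex.exp ((2 : ℝ) * (x : ℝ) * Complex.I))
        (gaussianReal 0 1) := by
      refine Integrable.of_bound (Continuous.aestronglyMeasurable (by fun_prop)) 1
        (Filter.Eventually.of_forall fun x => ?_)
      rw [← Complex.ofReal_mul, Complex.norm_exp_ofReal_mul_I]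
    have h2 := integral_re hint
    simp only [RCLike.re_eq_complex_re] at h2
    rw [← h2]
    refine integral_congr_ae (Filter.Eventually.of_forall fun x => ?_)
    show Real.cos (2 * x) = (Complex.exp ((2 : ℝ) * (x : ℝ) * Complex.I)).re
    rw [← Complex.ofReal_mul, Complex.exp_ofReal_mul_I_re]
  rw [h1, h]
  have h3 : ((2 : ℝ) : ℂ) * ((0 : ℝ) : ℂ) * Complex.I - (((1 : NNReal) : ℝ) : ℂ) * ((2 : ℝ) : ℂ) ^ 2 / 2 =
      ((-2 : ℝ) : ℂ) := by
    push_cast
    ring
  rw [h3, ← Complex.ofReal_exp, Complex.ofReal_re]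

theorem var_sin : 1 / 4 ≤ ∫ x, Real.sin x ^ 2 ∂(gaussianReal 0 1) := by
  have h1 : ∀ x : ℝ, Real.sin x ^ 2 = 1 / 2 - 1 / 2 * Real.cos (2 * x) := by
    intro x
    rw [Real.cos_two_mul, Real.cos_sq']
    ring
  have hc : Integrable (fun x : ℝ => Real.cos (2 * x)) (gaussianReal 0 1) := by
    refine Integrable.of_bound (Continuous.aestronglyMeasurable (by fun_prop)) 1
      (Filter.Eventually.of_forall fun x => ?_)
    rw [Real.norm_eq_abs]
    exact Real.abs_cos_le_one _
  have h2 : ∫ x, Real.sin x ^ 2 ∂(gaussianReal 0 1) = 1 / 2 - 1 / 2 * Real.exp (-2) := by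
    rw [integral_congr_ae (Filter.Eventually.of_forall h1), integral_sub (integrable_const _)
      (hc.const_mul _), integral_const_mul, int_cos_two]
    simp
  rw [h2]
  have h3 : Real.exp (-2) ≤ 1 / 2 := by
    rw [Real.exp_neg]
    have : (2 : ℝ) ≤ Real.exp 2 := by
      have := Real.add_one_le_exp (2 : ℝ)
      linarith
    rw [inv_le_comm₀ (Real.exp_pos _) (by norm_num)]
    linarith
  linarith

end BASaux

open BASaux in
theorem bas_thm : BASStmt := by
  intro p hp hp2 η hη
  have hev := (err_tendsto.eventually (gt_mem_nhds (show (0 : ℝ) < η ^ 2 by positivity))).exists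
  obtain ⟨K, hK⟩ := hev
  have hmp : MeasurePreserving (fun x : Fin 1 → ℝ => x 0) (gam (Fin 1)) (gaussianReal 0 1) :=
    measurePreserving_eval (fun _ : Fin 1 => gaussianReal 0 1) 0
  refine ⟨Fin 1, inferInstance, 1, fun x => Real.sin (x 0), fun x => Ty K (x 0), le_rfl,
    ?_, fun x => Real.abs_sin_le_one _, fun x => ?_, fun x y => ?_, ?_, Ty_mem K, ?_⟩
  · exact Real.contDiff_sin.comp (contDiff_apply ℝ ℝ (0 : Fin 1))
  · simp
  · have h := Real.abs_sin_sub_sin_le (x 0) (y 0)
    have h2 : (Real.sin (x 0) - Real.sin (y 0)) ^ 2 ≤ (x 0 - y 0) ^ 2 := sq_le_sq.2 h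
    simpa using h2
  · have h1 : ∫ x, Real.sin (x 0) ^ 2 ∂(gam (Fin 1)) =
        ∫ x, Real.sin x ^ 2 ∂(gaussianReal 0 1) := by
      have h2 := integral_map (μ := gam (Fin 1)) (φ := fun x : Fin 1 → ℝ => x 0)
        hmp.measurable.aemeasurable (f := fun x : ℝ => Real.sin x ^ 2)
        (Real.continuous_sin.pow 2).aestronglyMeasurable
      rw [hmp.map_eq] at h2
      exact h2.symm
    rw [h1]
    exact var_sin
  · have h1 : eLpNorm (fun x : Fin 1 → ℝ => Ty K (x 0) - Real.sin (x 0)) (ENNReal.ofReal p)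
        (gam (Fin 1)) = eLpNorm (fun x => Ty K x - Real.sin x) (ENNReal.ofReal p)
          (gaussianReal 0 1) :=
      eLpNorm_comp_measurePreserving (g := fun x : ℝ => Ty K x - Real.sin x)
        (err_cont K).aestronglyMeasurable hmp
    rw [h1]
    have h2 : ENNReal.ofReal p ≤ 2 := by
      rw [← ENNReal.ofReal_ofNat 2]
      exact ENNReal.ofReal_le_ofReal hp2.le
    refine (eLpNorm_le_eLpNorm_of_exponent_le h2
      (err_cont K).aestronglyMeasurable).trans ?_
    rw [(err_memLp K).eLpNorm_eq_integral_rpow_norm (by norm_num) (by norm_num)]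
    refine ENNReal.ofReal_le_ofReal ?_
    have h3 : ∫ x, ‖Ty K x - Real.sin x‖ ^ (2 : ENNReal).toReal ∂(gaussianReal 0 1) =
        ∫ x, (Ty K x - Real.sin x) ^ 2 ∂(gaussianReal 0 1) := by
      refine integral_congr_ae (Filter.Eventually.of_forall fun x => ?_)
      show ‖Ty K x - Real.sin x‖ ^ (2 : ENNReal).toReal = (Ty K x - Real.sin x) ^ 2
      rw [ENNReal.toReal_ofNat, Real.rpow_ofNat, Real.norm_eq_abs, sq_abs]
    rw [h3, ENNReal.toReal_ofNat]
    rw [show ((2 : ℝ)⁻¹) = 1 / 2 by norm_num, ← Real.sqrt_eq_rpow]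
    exact Real.sqrt_le_iff.2 ⟨hη.le, hK.le⟩

end Pool.Agent.H22.HD
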